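import Mathlib
import Pool.Agent.H865Z.Ffi.Defs
import Pool.Agent.H865Z.Ffi.Contra

namespace Pool.Agent.Results.MP_a0cf29_an.AYes

open MeasureTheory Pool.Agent.H865Z.Ffi

/-- There is a non-trivial stationary finite-alphabet process that is a finitary factor of an
i.i.d. process and has no non-trivial i.i.d. process as a finitary factor. -/
theorem result : ∃ (k : ℕ) (ν : Measure (ℤ → Fin k)), IsProbabilityMeasure ν ∧
    ν.map shift = ν ∧ (¬ ∃ y, ν = Measure.dirac y) ∧
    (∃ (m : ℕ) (p : Measure (Fin m)), IsProbabilityMeasure p ∧ IsFinitaryFactor (iid p) ν) ∧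
    ∀ (m : ℕ) (q : Measure (Fin m)), IsProbabilityMeasure q → IsFinitaryFactor ν (iid q) →
      ∃ z, iid q = Measure.dirac z :=
  Pool.Agent.H865Z.Ffi.main

end Pool.Agent.Results.MP_a0cf29_an.AYes
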